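import Pool.Agent.Q145.PQ.Stm
import Pool.Agent.Q241.LQ.CONVQ

/-! # Project PQ (helper145), job CONVP: the singular series of a fixed system converges -/

set_option autoImplicit false

namespace Pool.Agent.Q145.PQ

open Finset Filter Topology
open Pool.Agent.Q145.LQ (nuQ)
open Pool.Agent.Q241.LQ (dsc nu_large log_one_sub)
open Pool.Agent.W468.ConjF (SJ SJ_cauchy js_abs)

/-- one more root -/
lemma nuP_eq {K : ℕ} (q : Fin K → Polynomial ℤ) (s : Fin K → ℕ) {p : ℕ} (hp : 0 < p)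
    (h0 : ∀ i, ¬ (p : ℤ) ∣ (q i).eval 0 + s i) : nuP q s p = 1 + nuQ q s p := by
  classical
  unfold nuP nuQ
  have h1 : (range p).filter (fun n : ℕ => n = 0 ∨ ∃ i, (p : ℤ) ∣ (q i).eval (n : ℤ) + s i) =
      {0} ∪ (range p).filter (fun n : ℕ => ∃ i, (p : ℤ) ∣ (q i).eval (n : ℤ) + s i) := by
    ext n
    simp only [mem_filter, mem_union, mem_singleton, mem_range]
    constructor
    · rintro ⟨h1, h2 | h2⟩
      · exact Or.inl h2
      · exact Or.inr ⟨h1, h2⟩
    · rintro (h1 | ⟨h1, h2⟩)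
      · exact ⟨by omega, Or.inl h1⟩
      · exact ⟨h1, Or.inr h2⟩
  rw [h1, card_union_of_disjoint, card_singleton]
  rw [disjoint_left]
  intro n hn hn'
  rw [mem_singleton] at hn
  rw [mem_filter, hn] at hn'
  obtain ⟨_, i, hi⟩ := hn'
  exact h0 i (by simpa using hi)

lemma locP_pos {K : ℕ} (q : Fin K → Polynomial ℤ) (s : Fin K → ℕ) (ha : AdmP q s) {p : ℕ} (hp : p.Prime) :
    0 < locP q s p := by
  have hp1 : (1 : ℝ) < p := by exact_mod_cast hp.one_lt
  have h1 : (nuP q s p : ℝ) < p := by exact_mod_cast ha p hp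
  unfold locP
  refine div_pos ?_ (pow_pos ?_ _)
  · rw [sub_pos, div_lt_one (by linarith)]
    exact h1
  · rw [sub_pos, div_lt_one (by linarith)]
    exact hp1

/-- **CONVP** -/
theorem t_CONVP : S_CONVP := by
  classical
  intro K q s hdeg hΔ hprop ha
  obtain ⟨z0, hz0'⟩ := nu_large q s hdeg hΔ hprop
  have hne : ∀ i, (q i).eval 0 + (s i : ℤ) ≠ 0 := by
    intro i h
    apply hΔ i
    refine ⟨(q i).coeff 1, ?_⟩
    rw [← Polynomial.coeff_zero_eq_eval_zero] at h
    rw [h]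
    ring
  obtain ⟨z1, hz1'⟩ : ∃ z1 : ℕ, z1 = z0 + ∑ i, ((q i).eval 0 + (s i : ℤ)).natAbs := ⟨_, rfl⟩
  have hz1 : ∀ p : ℕ, p.Prime → z1 < p → (nuP q s p : ℤ) = 1 + ∑ i, (1 + jacobiSym (dsc q s i) p) := by
    intro p hp hpz
    rw [nuP_eq q s hp.pos]
    · push_cast
      rw [hz0' p hp (by omega)]
    · intro i h
      have h1 : p ∣ ((q i).eval 0 + (s i : ℤ)).natAbs := Int.natCast_dvd.mp h
      have h2 := Nat.le_of_dvd (Int.natAbs_pos.mpr (hne i)) h1
      have h3 : ((q i).eval 0 + (s i : ℤ)).natAbs ≤ ∑ i, ((q i).eval 0 + (s i : ℤ)).natAbs :=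
        single_le_sum (f := fun i => ((q i).eval 0 + (s i : ℤ)).natAbs) (fun _ _ => Nat.zero_le _) (mem_univ i)
      omega
  set z : ℕ := z1 + 4 * K + 2 with hz
  have hSJ : ∀ i, ∃ L : ℝ, Tendsto (fun N => SJ (dsc q s i) z N) atTop (𝓝 L) :=
    fun i => SJ_cauchy _ (hΔ i) z
  choose L hL using hSJ
  set J : ℕ → ℝ := fun n => ∑ i, (jacobiSym (dsc q s i) n : ℝ) with hJ
  have hJK : ∀ n, |J n| ≤ K := by
    intro n
    rw [hJ]
    simp only
    refine (abs_sum_le_sum_abs _ _).trans ?_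
    refine (sum_le_sum fun i _ => js_abs (dsc q s i) n).trans ?_
    simp
  set g : ℕ → ℝ := fun n => if n.Prime ∧ z < n then Real.log (locP q s n) + J n / n else 0 with hg
  set B : ℝ := 2 * (2 * (K : ℝ) + 1) ^ 2 + 2 * ((K : ℝ) + 1) with hB
  have hB0 : 0 ≤ B := by positivity
  have hgb : ∀ n, ‖g n‖ ≤ B / (n : ℝ) ^ 2 := by
    intro n
    rw [hg]
    simp only
    split_ifs with h
    · obtain ⟨hp, hn⟩ := h
      have hnK : (4 : ℝ) * K + 2 ≤ n := by
        have : z1 + 4 * K + 2 ≤ n := hn.le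
        have h1 : 4 * K + 2 ≤ n := by omega
        exact_mod_cast h1
      have hK0 : (0 : ℝ) ≤ K := Nat.cast_nonneg _
      have hn0 : (0 : ℝ) < n := by linarith
      have hnu : (nuP q s n : ℝ) = (K + 1) + J n := by
        have h1 := hz1 n hp (by omega)
        have h2 : ((nuP q s n : ℤ) : ℝ) = ((1 + ∑ i, (1 + jacobiSym (dsc q s i) n) : ℤ) : ℝ) := by rw [h1]
        push_cast at h2
        rw [h2, sum_add_distrib]
        simp [hJ]
        ring
      have hJn := hJK n
      have hx0 : |((K : ℝ) + 1) + J n| ≤ 2 * K + 1 := (abs_add_le _ _).trans (by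
          rw [abs_of_nonneg (by linarith : (0 : ℝ) ≤ (K : ℝ) + 1)]
          linarith)
      have hx1 : |(((K : ℝ) + 1) + J n) / n| ≤ 1 / 2 := by
        rw [abs_div, abs_of_pos hn0, div_le_iff₀ hn0]
        linarith
      have hx2 : |(1 : ℝ) / n| ≤ 1 / 2 := by
        rw [abs_div, abs_one, abs_of_pos hn0, div_le_iff₀ hn0]
        linarith
      have l1 := log_one_sub hx1
      have l2 := log_one_sub hx2
      have e1 : Real.log (locP q s n) = Real.log (1 - (((K : ℝ) + 1) + J n) / n) -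
          ((K : ℝ) + 1) * Real.log (1 - 1 / (n : ℝ)) := by
        have hn1 : (1 : ℝ) < n := by exact_mod_cast hp.one_lt
        have h1 : (nuP q s n : ℝ) < n := by exact_mod_cast ha n hp
        unfold locP
        rw [Real.log_div, Real.log_pow, hnu]
        · push_cast
          ring
        · refine (sub_pos.mpr ?_).ne'
          rw [div_lt_one (by linarith)]
          exact h1
        · refine (pow_pos (sub_pos.mpr ?_) _).ne'
          rw [div_lt_one (by linarith)]
          exact hn1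
      have e2 : Real.log (locP q s n) + J n / n = (Real.log (1 - (((K : ℝ) + 1) + J n) / n) +
          (((K : ℝ) + 1) + J n) / n) - ((K : ℝ) + 1) * (Real.log (1 - 1 / (n : ℝ)) + 1 / (n : ℝ)) := by
        rw [e1]
        ring
      rw [Real.norm_eq_abs, e2]
      refine (abs_sub _ _).trans ?_
      rw [abs_mul, abs_of_nonneg (by linarith : (0 : ℝ) ≤ (K : ℝ) + 1)]
      have h1 : 2 * ((((K : ℝ) + 1) + J n) / n) ^ 2 ≤ 2 * (2 * (K : ℝ) + 1) ^ 2 / (n : ℝ) ^ 2 := by
        rw [div_pow, ← mul_div_assoc]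
        refine div_le_div_of_nonneg_right ?_ (by positivity)
        have h3 : (((K : ℝ) + 1) + J n) ^ 2 ≤ (2 * K + 1) ^ 2 := by
          rw [← sq_abs (((K : ℝ) + 1) + J n)]
          exact pow_le_pow_left₀ (abs_nonneg _) hx0 2
        nlinarith
      have h2 : ((K : ℝ) + 1) * (2 * (1 / (n : ℝ)) ^ 2) = 2 * ((K : ℝ) + 1) / (n : ℝ) ^ 2 := by
        field_simp
      have h3 : ((K : ℝ) + 1) * |Real.log (1 - 1 / (n : ℝ)) + 1 / (n : ℝ)| ≤ 2 * ((K : ℝ) + 1) / (n : ℝ) ^ 2 := by
        rw [← h2]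
        exact mul_le_mul_of_nonneg_left l2 (by linarith)
      have h4 : B / (n : ℝ) ^ 2 = 2 * (2 * (K : ℝ) + 1) ^ 2 / (n : ℝ) ^ 2 + 2 * ((K : ℝ) + 1) / (n : ℝ) ^ 2 := by
        rw [hB, add_div]
      rw [h4]
      exact add_le_add (l1.trans h1) h3
    · rw [norm_zero]
      positivity
  have hsum : Summable g := by
    apply Summable.of_norm_bounded _ hgb
    have := (Real.summable_one_div_nat_pow (p := 2)).2 (by norm_num)
    simpa [div_eq_mul_inv] using this.mul_left B
  obtain ⟨G, hG⟩ := hsum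
  have hG' : Tendsto (fun N => ∑ n ∈ range (N + 1), g n) atTop (𝓝 G) :=
    hG.tendsto_sum_nat.comp (tendsto_add_atTop_nat 1)
  have hlim1 : Tendsto (fun N => ∑ n ∈ range (N + 1), g n - ∑ i, SJ (dsc q s i) z N) atTop
      (𝓝 (G - ∑ i, L i)) := hG'.sub (tendsto_finsetSum _ fun i _ => hL i)
  have hprod : ∀ N, Real.log (∏ p ∈ (Ioc z N).filter Nat.Prime, locP q s p) =
      ∑ n ∈ range (N + 1), g n - ∑ i, SJ (dsc q s i) z N := by
    intro N
    have h1 : ∑ i, SJ (dsc q s i) z N = ∑ p ∈ (Ioc z N).filter Nat.Prime, J p / p := by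
      unfold SJ
      rw [sum_comm]
      refine sum_congr rfl fun p _ => ?_
      rw [hJ]
      simp only
      rw [sum_div]
    rw [h1, Real.log_prod, eq_sub_iff_add_eq, ← sum_add_distrib, hg]
    · simp only
      rw [← sum_filter]
      apply sum_congr _ (fun _ _ => rfl)
      ext p
      simp only [mem_filter, mem_Ioc, mem_range]
      constructor
      · rintro ⟨h1, h2⟩
        exact ⟨by omega, h2, h1.1⟩
      · rintro ⟨h1, h2, h3⟩
        exact ⟨⟨h3, by omega⟩, h2⟩
    · intro p hp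
      rw [mem_filter] at hp
      exact (locP_pos q s ha hp.2).ne'
  have hpos : ∀ N, 0 < ∏ p ∈ (Ioc z N).filter Nat.Prime, locP q s p := fun N =>
    prod_pos fun p hp => locP_pos q s ha (mem_filter.mp hp).2
  have hlim2 : Tendsto (fun N => ∏ p ∈ (Ioc z N).filter Nat.Prime, locP q s p) atTop
      (𝓝 (Real.exp (G - ∑ i, L i))) := by
    have h1 := (Real.continuous_exp.tendsto _).comp hlim1
    refine h1.congr fun N => ?_
    rw [Function.comp_apply, ← hprod, Real.exp_log (hpos N)]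
  have hz0 : 0 < singPP q s z := prod_pos fun p hp => locP_pos q s ha (mem_filter.mp hp).2
  have hlim : Tendsto (singPP q s) atTop (𝓝 (singPP q s z * Real.exp (G - ∑ i, L i))) := by
    refine (hlim2.const_mul (singPP q s z)).congr' ?_
    filter_upwards [eventually_ge_atTop z] with N hN
    unfold singPP
    rw [← prod_union]
    · refine prod_congr ?_ fun _ _ => rfl
      ext p
      simp only [mem_union, mem_filter, mem_Icc, mem_Ioc]
      constructor
      · rintro (⟨⟨h1, h2⟩, h3⟩ | ⟨⟨h1, h2⟩, h3⟩)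
        · exact ⟨⟨h1, by omega⟩, h3⟩
        · exact ⟨⟨by omega, h2⟩, h3⟩
      · rintro ⟨⟨h1, h2⟩, h3⟩
        by_cases h4 : p ≤ z
        · exact Or.inl ⟨⟨h1, h4⟩, h3⟩
        · exact Or.inr ⟨⟨by omega, h2⟩, h3⟩
    · rw [disjoint_left]
      intro p h1 h2
      simp only [mem_filter, mem_Icc, mem_Ioc] at h1 h2
      omega
  have hs : singP q s = singPP q s z * Real.exp (G - ∑ i, L i) := hlim.limUnder_eq
  rw [hs]
  exact ⟨hlim, mul_pos hz0 (Real.exp_pos _)⟩

end Pool.Agent.Q145.PQ
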