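import Pool.Agent.Q145.PQ.Stm
import Pool.Agent.Q150.LQ.FARQ

/-!
# Project PQ of helper145, job FARP (adapted from helper150's FARQ)
-/

set_option autoImplicit false

namespace Pool.Agent.Q145.PQ

open Finset Filter
open Pool.Agent.Q145.SZ
open Pool.Agent.Q145.LQ (nuQ Sys SbQ w0)
open Pool.Agent.Q150.LQ (rtq nuQ_eq nuQ_bds colp dq rq rq_bd dq_bd coef_bds c2_ne eval_quad rs_ne sum_colp far_osc
  close count_upd w0_lt)

/-- the polynomials with root `0` modulo `p` -/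
def zrp {K : ℕ} (q : Fin K → Polynomial ℤ) (s : Fin K → ℕ) (p : ℕ) : Finset (Fin K) :=
  univ.filter fun i => (p : ℤ) ∣ (q i).coeff 0 + s i

theorem nuP_le {K : ℕ} (q : Fin K → Polynomial ℤ) (s : Fin K → ℕ) (p : ℕ) :
    nuP q s p ≤ 1 + nuQ q s p := by
  classical
  unfold nuP nuQ
  have h1 : (range p).filter (fun n : ℕ => n = 0 ∨ ∃ i, (p : ℤ) ∣ (q i).eval (n : ℤ) + s i) ⊆
      {0} ∪ (range p).filter (fun n : ℕ => ∃ i, (p : ℤ) ∣ (q i).eval (n : ℤ) + s i) := by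
    intro n
    simp only [mem_filter, mem_union, mem_singleton, mem_range]
    rintro ⟨h1, h2 | h2⟩
    · exact Or.inl h2
    · exact Or.inr ⟨h1, h2⟩
  refine (card_le_card h1).trans ((card_union_le _ _).trans ?_)
  rw [card_singleton]

theorem le_nuP {K : ℕ} (q : Fin K → Polynomial ℤ) (s : Fin K → ℕ) {p : ℕ} (hp : 0 < p) :
    1 + nuQ q s p ≤ nuP q s p + (zrp q s p).card := by
  classical
  by_cases h : (zrp q s p).Nonempty
  · have h1 : 1 ≤ (zrp q s p).card := card_pos.2 h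
    have h2 : nuQ q s p ≤ nuP q s p := by
      unfold nuP nuQ
      apply card_le_card
      intro n
      simp only [mem_filter]
      rintro ⟨h1, h2⟩
      exact ⟨h1, Or.inr h2⟩
    omega
  · rw [not_nonempty_iff_eq_empty] at h
    have h0 : ∀ i, ¬ (p : ℤ) ∣ (q i).coeff 0 + s i := by
      intro i hi
      have : i ∈ zrp q s p := by
        unfold zrp
        rw [mem_filter]
        exact ⟨mem_univ _, hi⟩
      rw [h] at this
      simp at this
    rw [h, card_empty, add_zero]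
    unfold nuP nuQ
    have h1 : (range p).filter (fun n : ℕ => n = 0 ∨ ∃ i, (p : ℤ) ∣ (q i).eval (n : ℤ) + s i) =
        {0} ∪ (range p).filter (fun n : ℕ => ∃ i, (p : ℤ) ∣ (q i).eval (n : ℤ) + s i) := by
      ext n
      simp only [mem_filter, mem_union, mem_singleton, mem_range]
      constructor
      · rintro ⟨h1, h2 | h2⟩
        · exact Or.inl h2
        · exact Or.inr ⟨h1, h2⟩
      · rintro (h1 | ⟨h1, h2⟩)
        · exact ⟨by omega, Or.inl h1⟩
        · exact ⟨h1, Or.inr h2⟩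
    rw [h1, card_union_of_disjoint, card_singleton]
    rw [disjoint_left]
    intro n hn hn'
    rw [mem_singleton] at hn
    rw [mem_filter, hn] at hn'
    obtain ⟨_, i, hi⟩ := hn'
    refine h0 i ?_
    rw [Polynomial.coeff_zero_eq_eval_zero]
    simpa using hi

/-- the logarithm of the local factor -/
theorem log_locP {K : ℕ} {q : Fin K → Polynomial ℤ} (hq : ∀ i, (q i).natDegree = 2) (s : Fin K → ℕ) {p : ℕ}
    (hp : p.Prime) (hK : 4 * (K + 1) ≤ p) (ha : ∀ i, ¬ (p : ℤ) ∣ (q i).coeff 2) :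
    0 < locP q s p ∧ |Real.log (locP q s p) + (∑ i, (jacobiSym (dq (q i) (s i)) p : ℝ)) / p| ≤
      10 * ((K : ℝ) + 1) ^ 2 / (p : ℝ) ^ 2 + (2 * ((colp q s p).card : ℝ) + ((zrp q s p).card : ℝ)) / p := by
  have hp2 : p ≠ 2 := by omega
  obtain ⟨h1, h2, h3⟩ := nuQ_bds hq s hp hp2 ha
  have i1 := nuP_le q s p
  have i2 := le_nuP q s hp.pos
  have i1' : (nuP q s p : ℝ) ≤ 1 + nuQ q s p := by exact_mod_cast i1
  have i2' : 1 + (nuQ q s p : ℝ) ≤ nuP q s p + ((zrp q s p).card : ℝ) := by exact_mod_cast i2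
  have h1' : (nuQ q s p : ℝ) ≤ K + ∑ i, (jacobiSym (dq (q i) (s i)) p : ℝ) := by exact_mod_cast h1
  have h2' : (K : ℝ) + ∑ i, (jacobiSym (dq (q i) (s i)) p : ℝ) ≤ nuQ q s p + 2 * ((colp q s p).card : ℝ) := by
    exact_mod_cast h2
  have h3' : (nuQ q s p : ℝ) ≤ 2 * K := by exact_mod_cast h3
  set J : ℝ := ∑ i, (jacobiSym (dq (q i) (s i)) p : ℝ) with hJ
  obtain ⟨ν, hν⟩ : ∃ ν : ℝ, ν = (nuP q s p : ℝ) := ⟨_, rfl⟩
  obtain ⟨N, hN⟩ : ∃ N : ℝ, N = 2 * ((colp q s p).card : ℝ) + ((zrp q s p).card : ℝ) := ⟨_, rfl⟩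
  obtain ⟨k, hk⟩ : ∃ k : ℝ, k = (K : ℝ) + 1 := ⟨_, rfl⟩
  have g1 : ν ≤ k + J := by linarith
  have g2 : k + J ≤ ν + N := by linarith
  have g3 : ν ≤ 2 * k := by linarith
  have hp0 : (0 : ℝ) < p := by exact_mod_cast hp.pos
  have hKp : 4 * k ≤ p := by
    rw [hk]
    exact_mod_cast hK
  have hν0 : 0 ≤ ν := by
    rw [hν]
    exact Nat.cast_nonneg _
  have hk0 : (1 : ℝ) ≤ k := by
    rw [hk]
    have : (0 : ℝ) ≤ K := Nat.cast_nonneg _
    linarith
  have hN0 : 0 ≤ N := by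
    rw [hN]
    positivity
  have hx1 : ν / p ≤ 1 / 2 := by
    rw [div_le_div_iff₀ hp0 two_pos]
    linarith
  have hx0 : 0 ≤ ν / p := by positivity
  have hy1 : 1 / (p : ℝ) ≤ 1 / 2 := by
    rw [div_le_div_iff₀ hp0 two_pos]
    linarith
  have hy0 : 0 ≤ 1 / (p : ℝ) := by positivity
  have e1 : 0 < 1 - ν / p := by linarith
  have e2 : 0 < 1 - 1 / (p : ℝ) := by linarith
  have hloc : locP q s p = (1 - ν / p) / (1 - 1 / (p : ℝ)) ^ (K + 1) := by
    unfold locP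
    rw [hν]
  have hpos : 0 < locP q s p := by
    rw [hloc]
    exact div_pos e1 (pow_pos e2 _)
  refine ⟨hpos, ?_⟩
  have hlog : Real.log (locP q s p) = Real.log (1 - ν / p) - k * Real.log (1 - 1 / (p : ℝ)) := by
    rw [hloc, Real.log_div e1.ne' (pow_pos e2 (K + 1)).ne', Real.log_pow, hk]
    push_cast
    ring
  obtain ⟨ha', hb⟩ := Pool.Agent.Q261.SZ.log_bds hx0 hx1
  obtain ⟨hc, hd⟩ := Pool.Agent.Q261.SZ.log_bds hy0 hy1
  have hk0' : 0 ≤ k := by linarith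
  have f1 : k * Real.log (1 - 1 / (p : ℝ)) ≤ k * (-(1 / (p : ℝ))) := by gcongr
  have f2 : k * (-(1 / (p : ℝ)) - 2 * (1 / (p : ℝ)) ^ 2) ≤
      k * Real.log (1 - 1 / (p : ℝ)) := by gcongr
  have f3 : k ≤ k ^ 2 := by nlinarith
  have f4 : k * (2 * (1 / (p : ℝ)) ^ 2) ≤ 2 * k ^ 2 / (p : ℝ) ^ 2 := by
    rw [one_div, inv_pow, ← div_eq_mul_inv, mul_div_assoc', div_le_div_iff_of_pos_right (by positivity)]
    linarith
  have f5 : 2 * (ν / p) ^ 2 ≤ 8 * k ^ 2 / (p : ℝ) ^ 2 := by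
    rw [div_pow, mul_div_assoc', div_le_div_iff_of_pos_right (by positivity)]
    nlinarith
  have f6 : ν / p ≤ (k + J) / p := by gcongr
  have f7 : (k + J) / p ≤ (ν + N) / p := by gcongr
  have f8 : (k + J) / p = k * (1 / (p : ℝ)) + J / p := by ring
  have f9 : (ν + N) / p = ν / p + N / p := by ring
  have f10 : 10 * k ^ 2 / (p : ℝ) ^ 2 = 8 * k ^ 2 / (p : ℝ) ^ 2 + 2 * k ^ 2 / (p : ℝ) ^ 2 := by ring
  have f11 : 0 ≤ N / p := by positivity
  have f12 : 0 ≤ 2 * k ^ 2 / (p : ℝ) ^ 2 := by positivity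
  have f13 : 0 ≤ 8 * k ^ 2 / (p : ℝ) ^ 2 := by positivity
  rw [hlog, ← hN, ← hk, abs_le]
  constructor
  · linarith
  · linarith

theorem locP_pos' {K : ℕ} {q : Fin K → Polynomial ℤ} {s : Fin K → ℕ} {p : ℕ} (hp : p.Prime)
    (h : nuP q s p < p) : 0 < locP q s p := by
  have hp0 : (0 : ℝ) < p := by exact_mod_cast hp.pos
  have h1 : (nuP q s p : ℝ) < p := by exact_mod_cast h
  have h2 : (1 : ℝ) < p := by exact_mod_cast hp.one_lt
  have h3 : 0 < 1 - (nuP q s p : ℝ) / p := by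
    rw [sub_pos, div_lt_one hp0]
    exact h1
  have h4 : 0 < 1 - 1 / (p : ℝ) := by
    rw [sub_pos, div_lt_one hp0]
    exact h2
  unfold locP
  positivity

theorem singPP_pos {K : ℕ} {q : Fin K → Polynomial ℤ} {s : Fin K → ℕ} (h : AdmP q s) (w : ℕ) :
    0 < singPP q s w := by
  unfold singPP
  refine prod_pos fun p hp => ?_
  rw [mem_filter] at hp
  exact locP_pos' hp.2 (h p hp.2)

/-- the number of polynomials with root `0`, summed over the primes -/
theorem sum_zrp {K : ℕ} {q : Fin K → Polynomial ℤ} {s : Fin K → ℕ} {w n M : ℕ} (hw : 3 ≤ w)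
    (hne : ∀ i, (q i).coeff 0 + s i ≠ 0) (hle : ∀ i, ((q i).coeff 0 + (s i : ℤ)).natAbs ≤ M) :
    ∑ p ∈ (Ioc w n).filter Nat.Prime, ((zrp q s p).card : ℝ) / p ≤ (K : ℝ) * Real.log M / w := by
  classical
  have hw0 : (0 : ℝ) < w := by exact_mod_cast (show 0 < w by omega)
  have h1 : ∀ p ∈ (Ioc w n).filter Nat.Prime, ((zrp q s p).card : ℝ) / p ≤ ((zrp q s p).card : ℝ) / w := by
    intro p hp
    rw [mem_filter, mem_Ioc] at hp
    have : (w : ℝ) ≤ p := by exact_mod_cast hp.1.1.le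
    gcongr
  refine (sum_le_sum h1).trans ?_
  rw [← sum_div]
  refine div_le_div_of_nonneg_right ?_ hw0.le
  have h2 : ∑ p ∈ (Ioc w n).filter Nat.Prime, ((zrp q s p).card : ℝ) =
      ∑ i : Fin K, ((((Ioc w n).filter Nat.Prime).filter
        fun p : ℕ => (p : ℤ) ∣ (q i).coeff 0 + s i).card : ℝ) := by
    have h3 : ∀ p : ℕ, ((zrp q s p).card : ℝ) =
        ∑ i : Fin K, if (p : ℤ) ∣ (q i).coeff 0 + s i then (1 : ℝ) else 0 := by
      intro p
      rw [sum_boole]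
      rfl
    simp only [h3]
    rw [sum_comm]
    refine sum_congr rfl fun x _ => ?_
    rw [sum_boole]
  rw [h2]
  have h3 : ∀ i ∈ (univ : Finset (Fin K)), ((((Ioc w n).filter Nat.Prime).filter
        fun p : ℕ => (p : ℤ) ∣ (q i).coeff 0 + s i).card : ℝ) ≤ Real.log M := by
    intro i _
    have hne' : ((q i).coeff 0 + (s i : ℤ)).natAbs ≠ 0 := by
      rw [Int.natAbs_ne_zero]
      exact hne _
    have h4 := Pool.Agent.Q261.SZ.card_primes ((q i).coeff 0 + (s i : ℤ)).natAbs hne' (Y := (w : ℝ))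
      (by exact_mod_cast hw) (((Ioc w n).filter Nat.Prime).filter
      fun p : ℕ => (p : ℤ) ∣ (q i).coeff 0 + s i) (fun p hp => by
        rw [mem_filter, mem_filter, mem_Ioc] at hp
        exact ⟨hp.1.2, Int.natCast_dvd.1 hp.2, by exact_mod_cast hp.1.1.1.le⟩)
    refine h4.trans (Real.log_le_log (by exact_mod_cast Nat.pos_of_ne_zero hne') ?_)
    exact_mod_cast hle i
  refine (sum_le_card_nsmul _ _ _ h3).trans ?_
  rw [card_univ, Fintype.card_fin, nsmul_eq_mul]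

theorem good {K : ℕ} {q : Fin K → Polynomial ℤ} {s : Fin K → ℕ} {z Y w M : ℕ} {η : ℝ}
    (hq : ∀ i, (q i).natDegree = 2)
    (hc : ∀ i, |(q i).coeff 2| ≤ z ∧ |(q i).coeff 1| ≤ 8 * (z * Y) ∧ |(q i).coeff 0| ≤ 22 * (z * Y ^ 2))
    (hs : ∀ i, s i ≤ z * Y ^ 2) (hw : 3 ≤ w) (hzw : z ≤ w) (hKw : 4 * (K + 1) ≤ w)
    (hM : 8004 * (z ^ 4 * Y ^ 4) ≤ M)
    (hJ : ∀ i, ∃ l : ℝ, Tendsto (fun N : ℕ => ∑ p ∈ (Ioc w N).filter Nat.Prime,
      (jacobiSym (dq (q i) (s i)) p : ℝ) / p) atTop (nhds l) ∧ |l| ≤ η)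
    (hsq : ∀ i, ¬ IsSquare (dq (q i) (s i)))
    (hnp : ∀ i j, i ≠ j → ¬ ((q i).coeff 2 * (q j).coeff 1 = (q j).coeff 2 * (q i).coeff 1 ∧
      (q i).coeff 2 * ((q j).coeff 0 + s j) = (q j).coeff 2 * ((q i).coeff 0 + s i)))
    (hA : AdmP q s) :
    0 < singP q s ∧ Tendsto (singPP q s) atTop (nhds (singP q s)) ∧
      |Real.log (singP q s / singPP q s w)| ≤
        (10 * ((K : ℝ) + 1) ^ 2 / w + (2 * ((K : ℝ) ^ 2 * Real.log M / w) + (K : ℝ) * Real.log M / w)) + K * η := by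
  choose l hl1 hl2 using hJ
  have hcop : ∀ p : ℕ, w < p → ∀ i, ¬ (p : ℤ) ∣ (q i).coeff 2 := by
    intro p hp i h
    have h1 := Int.natCast_dvd.1 h
    have h2 := Nat.le_of_dvd (Int.natAbs_pos.2 (c2_ne (hq i))) h1
    have h3 := (hc i).1
    rw [Int.abs_eq_natAbs] at h3
    have h4 : ((q i).coeff 2).natAbs ≤ z := by exact_mod_cast h3
    omega
  have hw0 : (0 : ℝ) < w := by exact_mod_cast (show 0 < w by omega)
  set g : ℕ → ℝ := fun p => (∑ i, (jacobiSym (dq (q i) (s i)) p : ℝ)) / p with hg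
  set e : ℕ → ℝ := fun p => Real.log (locP q s p) + g p with he
  have hg1 : Tendsto (fun n => ∑ p ∈ (Ioc w n).filter Nat.Prime, g p) atTop (nhds (∑ i, l i)) := by
    have h1 := tendsto_finsetSum (univ : Finset (Fin K)) fun i _ => hl1 i
    refine h1.congr fun n => ?_
    rw [sum_comm]
    refine sum_congr rfl fun p _ => ?_
    rw [hg]
    dsimp only
    rw [sum_div]
  have hne : ∀ i j, i ≠ j → rq (q i) (q j) (s i) (s j) ≠ 0 := by
    intro i j hij
    exact rs_ne (c2_ne (hq i)) (hsq i) (hnp i j hij)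
  have hle : ∀ i j, (rq (q i) (q j) (s i) (s j)).natAbs ≤ M := by
    intro i j
    have h1 := rq_bd (hc i) (hc j) (hs i) (hs j)
    rw [Int.abs_eq_natAbs] at h1
    have h2 : (rq (q i) (q j) (s i) (s j)).natAbs ≤ 8004 * (z ^ 4 * Y ^ 4) := by exact_mod_cast h1
    exact h2.trans hM
  have hne0 : ∀ i, (q i).coeff 0 + s i ≠ 0 := by
    intro i h
    apply hsq i
    refine ⟨(q i).coeff 1, ?_⟩
    unfold dq
    rw [h]
    ring
  have hle0 : ∀ i, ((q i).coeff 0 + (s i : ℤ)).natAbs ≤ M := by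
    intro i
    have h1 := (hc i).2.2
    have h2 : (s i : ℤ) ≤ z * Y ^ 2 := by exact_mod_cast hs i
    have h3 : |(q i).coeff 0 + (s i : ℤ)| ≤ 23 * (z * Y ^ 2) := by
      refine (abs_add_le _ _).trans ?_
      rw [abs_of_nonneg (Int.natCast_nonneg (s i))]
      linarith
    rw [Int.abs_eq_natAbs] at h3
    have h4 : ((q i).coeff 0 + (s i : ℤ)).natAbs ≤ 23 * (z * Y ^ 2) := by exact_mod_cast h3
    have h5 : z * Y ^ 2 ≤ z ^ 4 * Y ^ 4 := by
      refine Nat.mul_le_mul (Nat.le_self_pow (by norm_num) z) ?_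
      rcases Nat.eq_zero_or_pos Y with h | h
      · rw [h]
        norm_num
      · exact Nat.pow_le_pow_right h (by norm_num)
    refine h4.trans (le_trans ?_ hM)
    nlinarith
  have hsum : ∀ n : ℕ, ∑ p ∈ (Ioc w n).filter Nat.Prime, |e p| ≤
      10 * ((K : ℝ) + 1) ^ 2 / w + (2 * ((K : ℝ) ^ 2 * Real.log M / w) + (K : ℝ) * Real.log M / w) := by
    intro n
    have h1 : ∀ p ∈ (Ioc w n).filter Nat.Prime, |e p| ≤
        10 * ((K : ℝ) + 1) ^ 2 * ((p : ℝ) ^ 2)⁻¹ + (2 * (((colp q s p).card : ℝ) / p) +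
          ((zrp q s p).card : ℝ) / p) := by
      intro p hp
      rw [mem_filter, mem_Ioc] at hp
      have h2 := (log_locP hq s hp.2 (by omega) (hcop p hp.1.1)).2
      refine h2.trans (le_of_eq ?_)
      rw [div_eq_mul_inv, add_div, mul_div_assoc]
    refine (sum_le_sum h1).trans ?_
    rw [sum_add_distrib, sum_add_distrib, ← mul_sum, ← mul_sum]
    have h3 := Pool.Agent.Q261.SZ.sum_inv_sq w n (by omega) ((Ioc w n).filter Nat.Prime) (filter_subset _ _)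
    have h4 := sum_colp (n := n) hw hne hle
    have h4' := sum_zrp (n := n) hw hne0 hle0
    have h5 : 10 * ((K : ℝ) + 1) ^ 2 * ∑ p ∈ (Ioc w n).filter Nat.Prime, ((p : ℝ) ^ 2)⁻¹ ≤
        10 * ((K : ℝ) + 1) ^ 2 / w := by
      rw [div_eq_mul_inv]
      gcongr
    linarith
  obtain ⟨L, hL0, hL1, hL2⟩ := far_osc (locP q s) e g w
    (10 * ((K : ℝ) + 1) ^ 2 / w + (2 * ((K : ℝ) ^ 2 * Real.log M / w) + (K : ℝ) * Real.log M / w)) (∑ i, l i)
    (fun p hp hwp => (log_locP hq s hp (by omega) (hcop p hwp)).1)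
    (fun p hp hwp => by
      rw [he]
      dsimp only
      ring)
    (singPP_pos hA w) hsum hg1
  have hlim : Tendsto (singPP q s) atTop (nhds L) := hL1
  have hsing : singP q s = L := hlim.limUnder_eq
  rw [hsing]
  refine ⟨hL0, hlim, hL2.trans ?_⟩
  refine add_le_add le_rfl ?_
  refine (abs_sum_le_sum_abs _ _).trans ?_
  refine (sum_le_card_nsmul _ _ η fun i _ => hl2 i).trans ?_
  rw [card_univ, Fintype.card_fin, nsmul_eq_mul]

/-- job FARP of project PQ of helper145 -/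
theorem t_FARP : S_FARP := by
  classical
  intro hCHT ε hε
  obtain ⟨X₁, hX₁⟩ := hCHT 2
  obtain ⟨X₀, hX₀⟩ := Filter.eventually_atTop.1 (Pool.Agent.Q150.LQ.ev (1000 + 1000 / ε) (1 + 1 / ε) (by positivity))
  refine ⟨max (max X₀ X₁) 2, ?_⟩
  intro z Y K H q hY hK hSys hq hz hW b
  have hY0 : X₀ ≤ Y := (le_max_left _ _).trans ((le_max_left _ _).trans hY)
  have hY1 : X₁ ≤ Y := (le_max_right _ _).trans ((le_max_left _ _).trans hY)
  have hY2 : 2 ≤ Y := (le_max_right _ _).trans hY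
  obtain ⟨hlog4, hlogD⟩ := hX₀ Y hY0
  set L : ℝ := Real.log Y with hL
  have hYpos : (0 : ℝ) < Y := by exact_mod_cast (show 0 < Y by omega)
  obtain ⟨r, hr⟩ : ∃ r : ℝ, r = (Y : ℝ) ^ (1 / 20 : ℝ) := ⟨_, rfl⟩
  rw [← hr] at hlog4
  have hr0 : 0 < r := by
    rw [hr]
    exact Real.rpow_pos_of_pos hYpos _
  have hr20 : (Y : ℝ) = r ^ 20 := by
    rw [hr, ← Real.rpow_natCast, ← Real.rpow_mul hYpos.le]
    norm_num
  have hL1 : 1 ≤ L := by
    have : 0 < 1 / ε := by positivity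
    linarith
  have hC0 : 0 < 1000 / ε := by positivity
  have hL3 : L ≤ L ^ 4 := by nlinarith [pow_le_pow_right₀ hL1 (show 1 ≤ 4 by norm_num)]
  have hrL : 1000 * L ^ 4 ≤ r := by nlinarith [pow_pos (zero_lt_one.trans_le hL1) 4]
  have hrLε : 1000 / ε * L ^ 4 ≤ r := by nlinarith [pow_pos (zero_lt_one.trans_le hL1) 4]
  have hr1 : 1000 ≤ r := by linarith
  have hX40 : (((Y ^ 2 : ℕ)) : ℝ) = r ^ 40 := by
    push_cast
    rw [hr20]
    ring
  have hKz : (32 : ℝ) * (K + 1) ≤ z := by exact_mod_cast hK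
  have hK0 : (0 : ℝ) ≤ K := Nat.cast_nonneg _
  have hKL : (K : ℝ) ≤ L := by linarith
  have hKL1 : (K : ℝ) + 1 ≤ L := by linarith
  have hz1 : (1 : ℝ) ≤ z := by linarith
  -- the cut-off
  obtain ⟨w, hw⟩ : ∃ w : ℕ, w = w0 (Y ^ 2) := ⟨_, rfl⟩
  have hw1 : r < 2 * (w : ℝ) := by
    have h1 := w0_lt (Y ^ 2)
    rw [← hw] at h1
    have h2 : (((Y ^ 2 : ℕ)) : ℝ) < (((2 * w) ^ 40 : ℕ) : ℝ) := by exact_mod_cast h1
    rw [hX40] at h2
    push_cast at h2
    exact lt_of_pow_lt_pow_left₀ 40 (by positivity) h2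
  have hzw' : (z : ℝ) ≤ w := by linarith
  have hzw : z ≤ w := by exact_mod_cast hzw'
  have hw3 : 3 ≤ w := by omega
  have hw0 : (0 : ℝ) < w := by exact_mod_cast (show 0 < w by omega)
  -- the coefficients
  have hc : ∀ i, |(q i).coeff 2| ≤ z ∧ |(q i).coeff 1| ≤ 8 * (z * Y) ∧ |(q i).coeff 0| ≤ 22 * (z * Y ^ 2) :=
    fun i => coef_bds (hq i) hY2 (hSys.lead i) (hSys.scale i).2 (hSys.val i)
  have hYX : X₁ ≤ Y ^ 2 := hY1.trans (Nat.le_self_pow two_ne_zero Y)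
  -- the exceptional sets
  have hB : ∀ i, ∃ B : Finset ℕ, (B.card : ℝ) ≤ r ^ 36 ∧ ∀ s ∈ Icc 1 (H i), s ∉ B →
      ¬ IsSquare (dq (q i) s) ∧ ∃ l : ℝ, Tendsto (fun N : ℕ => ∑ p ∈ (Ioc w N).filter Nat.Prime,
        (jacobiSym (dq (q i) s) p : ℝ) / p) atTop (nhds l) ∧ |l| ≤ 1 / (4 * L ^ 2) := by
    intro i
    have hdq : ∀ s : ℕ, dq (q i) s = ((q i).coeff 1 ^ 2 - 4 * (q i).coeff 2 * (q i).coeff 0) +
        (-4 * (q i).coeff 2) * (s : ℤ) := by
      intro s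
      unfold dq
      ring
    obtain ⟨B, -, hB1, hB2⟩ := hX₁ (Y ^ 2) (H i) ((q i).coeff 1 ^ 2 - 4 * (q i).coeff 2 * (q i).coeff 0)
      (-4 * (q i).coeff 2) hYX (hSys.scale i).1 (mul_ne_zero (by norm_num) (c2_ne (hq i))) (by
        intro s hs
        rw [← hdq]
        have h1 := dq_bd (hc i) ((mem_Icc.1 hs).2.trans (hSys.scale i).2)
        have h2 : ((|dq (q i) s| : ℤ) : ℝ) ≤ 156 * ((z : ℝ) ^ 2 * (Y : ℝ) ^ 2) := by exact_mod_cast h1
        refine h2.trans ?_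
        rw [hX40, ← Real.rpow_natCast r 40, ← Real.rpow_mul hr0.le]
        have h3 : ((40 : ℕ) : ℝ) * (11 / 10) = ((44 : ℕ) : ℝ) := by norm_num
        rw [h3, Real.rpow_natCast, hr20, ← pow_mul]
        have h4 : (z : ℝ) ^ 2 ≤ L ^ 2 := by gcongr
        have h5 : L ^ 2 ≤ L ^ 4 := pow_le_pow_right₀ hL1 (by norm_num)
        have h6 : 156 * (z : ℝ) ^ 2 ≤ r ^ 4 := by
          have h7 : r ≤ r ^ 4 := le_self_pow₀ (by linarith) (by norm_num)
          linarith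
        calc 156 * ((z : ℝ) ^ 2 * r ^ (20 * 2)) = (156 * (z : ℝ) ^ 2) * r ^ 40 := by ring
          _ ≤ r ^ 4 * r ^ 40 := by gcongr
          _ = r ^ 44 := by ring)
    refine ⟨B, ?_, fun s hs hsB => ?_⟩
    · refine hB1.trans (le_of_eq ?_)
      rw [hX40, ← Real.rpow_natCast r 40, ← Real.rpow_mul hr0.le]
      have h3 : ((40 : ℕ) : ℝ) * (9 / 10) = ((36 : ℕ) : ℝ) := by norm_num
      rw [h3, Real.rpow_natCast]
    · obtain ⟨h1, l, h2, h3⟩ := hB2 s hs hsB
      rw [← hdq] at h1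
      rw [← hw] at h2
      simp only [← hdq] at h2
      refine ⟨h1, l, h2, h3.trans (le_of_eq ?_)⟩
      push_cast
      rw [Real.log_pow]
      push_cast
      rw [← hL]
      ring
  choose B hB1 hB2 using hB
  -- good tuples
  have hgood : ∀ s ∈ SbQ H b, (∀ i, s i ∉ B i) → (∀ i j, i ≠ j →
      ¬ ((q i).coeff 2 * (q j).coeff 1 = (q j).coeff 2 * (q i).coeff 1 ∧
      (q i).coeff 2 * ((q j).coeff 0 + s j) = (q j).coeff 2 * ((q i).coeff 0 + s i))) →
      (AdmP q s → 0 < singP q s ∧ Tendsto (singPP q s) atTop (nhds (singP q s)) ∧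
        |singP q s - singPP q s (w0 (Y ^ 2))| ≤ ε * singPP q s (w0 (Y ^ 2))) := by
    intro s hs hsB hnp hA
    unfold SbQ at hs
    rw [Fintype.mem_piFinset] at hs
    have hsI : ∀ i, s i ∈ Icc 1 (H i) := by
      intro i
      have h1 := hs i
      unfold cls at h1
      exact (mem_filter.1 h1).1
    have hM : 8004 * (z ^ 4 * Y ^ 4) ≤ Y ^ 8 := by
      have h1 : 10 * z ≤ Y := by
        have h2 : (10 : ℝ) * z ≤ Y := by
          have h3 : r ≤ r ^ 20 := le_self_pow₀ (by linarith) (by norm_num)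
          rw [hr20]
          linarith
        exact_mod_cast h2
      have h2 : (10 * z) ^ 4 ≤ Y ^ 4 := Nat.pow_le_pow_left h1 4
      calc 8004 * (z ^ 4 * Y ^ 4) ≤ (10 * z) ^ 4 * Y ^ 4 := by
            rw [mul_pow]
            have : 8004 * (z ^ 4 * Y ^ 4) ≤ 10 ^ 4 * (z ^ 4 * Y ^ 4) := Nat.mul_le_mul_right _ (by norm_num)
            linarith
        _ ≤ Y ^ 4 * Y ^ 4 := Nat.mul_le_mul_right _ h2
        _ = Y ^ 8 := by ring
    obtain ⟨g1, g2, g3⟩ := good (w := w) hq hc (fun i => ((mem_Icc.1 (hsI i)).2).trans (hSys.scale i).2)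
      hw3 hzw (by omega) hM (fun i => (hB2 i (s i) (hsI i) (hsB i)).2)
      (fun i => (hB2 i (s i) (hsI i) (hsB i)).1) hnp hA
    refine ⟨g1, g2, ?_⟩
    rw [← hw]
    have hβ : (10 * ((K : ℝ) + 1) ^ 2 / w + (2 * ((K : ℝ) ^ 2 * Real.log ((Y ^ 8 : ℕ) : ℝ) / w) +
        (K : ℝ) * Real.log ((Y ^ 8 : ℕ) : ℝ) / w)) +
        K * (1 / (4 * L ^ 2)) ≤ 68 * L ^ 3 / r + 1 / (4 * L) := by
      push_cast
      rw [Real.log_pow]
      push_cast
      rw [← hL]
      have h1 : (K : ℝ) ^ 2 ≤ L ^ 2 := by gcongr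
      have h2 : K * (1 / (4 * L ^ 2)) ≤ 1 / (4 * L) := by
        calc K * (1 / (4 * L ^ 2)) ≤ L * (1 / (4 * L ^ 2)) := by gcongr
          _ = 1 / (4 * L) := by
            have : L ≠ 0 := by linarith
            field_simp
      have h3 : 10 * ((K : ℝ) + 1) ^ 2 / w + (2 * ((K : ℝ) ^ 2 * (8 * L) / w) + (K : ℝ) * (8 * L) / w) =
          (10 * ((K : ℝ) + 1) ^ 2 + (16 * (K : ℝ) ^ 2 + 8 * K) * L) / w := by
        ring
      have h4 : 10 * ((K : ℝ) + 1) ^ 2 + (16 * (K : ℝ) ^ 2 + 8 * K) * L ≤ 34 * L ^ 3 := by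
        have g1 : ((K : ℝ) + 1) ^ 2 ≤ L ^ 2 := by gcongr
        have g2 : 16 * (K : ℝ) ^ 2 + 8 * K ≤ 24 * L ^ 2 := by nlinarith
        have g3 : L ^ 2 ≤ L ^ 3 := pow_le_pow_right₀ hL1 (by norm_num)
        have g4 : (16 * (K : ℝ) ^ 2 + 8 * K) * L ≤ 24 * L ^ 2 * L := by gcongr
        nlinarith
      have h5 : (10 * ((K : ℝ) + 1) ^ 2 + (16 * (K : ℝ) ^ 2 + 8 * K) * L) / w ≤ 68 * L ^ 3 / r := by
        rw [div_le_div_iff₀ hw0 hr0]
        have h6 : (0 : ℝ) ≤ 34 * L ^ 3 := by positivity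
        calc (10 * ((K : ℝ) + 1) ^ 2 + (16 * (K : ℝ) ^ 2 + 8 * K) * L) * r ≤ 34 * L ^ 3 * r := by gcongr
          _ ≤ 34 * L ^ 3 * (2 * w) := by gcongr
          _ = 68 * L ^ 3 * w := by ring
      rw [h3]
      exact add_le_add h5 h2
    have hL34 : L ^ 3 ≤ L ^ 4 := pow_le_pow_right₀ hL1 (by norm_num)
    have e1 : 68 * L ^ 3 / r ≤ 68 / 1000 := by
      rw [div_le_div_iff₀ hr0 (by norm_num)]
      linarith
    have e2 : 1 / (4 * L) ≤ 1 / 4 := by
      rw [div_le_div_iff₀ (by positivity) (by norm_num)]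
      linarith
    have e3 : 68 * L ^ 3 / r ≤ 68 / 1000 * ε := by
      rw [div_le_iff₀ hr0]
      have h7 : 1000 * L ^ 4 ≤ ε * r := by
        have h8 : 1000 / ε * L ^ 4 = 1000 * L ^ 4 / ε := by ring
        rw [h8, div_le_iff₀ hε] at hrLε
        linarith
      nlinarith
    have e4 : 1 / (4 * L) ≤ 1 / 4 * ε := by
      rw [div_le_iff₀ (by positivity)]
      have h8 : 1 / ε ≤ L := by linarith
      rw [div_le_iff₀ hε] at h8
      linarith
    have h9 := close g1 (singPP_pos hA w) (g3.trans hβ) (by linarith)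
    refine h9.trans ?_
    have hP := singPP_pos hA w
    nlinarith
  -- sizes of the classes
  have hWr : (PW z : ℝ) ≤ r := by
    have h1 : (PW z : ℝ) ^ 40 ≤ r ^ 40 := by
      refine hW.trans (le_of_eq ?_)
      rw [hr20]
      ring
    exact le_of_pow_le_pow_left₀ (by norm_num) hr0.le h1
  have hW0 : (0 : ℝ) < PW z := by exact_mod_cast Nat.pos_of_ne_zero (NeZero.ne (PW z))
  have hT : ∀ i, r ^ 39 / 2 ≤ ((cls (H i) (b i)).card : ℝ) := by
    intro i
    have h1 := (abs_le.1 (Pool.Agent.Q261.SZ.card_cls (H i) (b i))).1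
    have h2 : r ^ 40 ≤ H i := by
      rw [← hX40]
      exact_mod_cast (hSys.scale i).1
    have h3 : r ^ 39 ≤ (H i : ℝ) / PW z := by
      rw [le_div_iff₀ hW0]
      calc r ^ 39 * PW z ≤ r ^ 39 * r := by gcongr
        _ = r ^ 40 := by ring
        _ ≤ H i := h2
    have h4 : r ≤ r ^ 39 := le_self_pow₀ (by linarith) (by norm_num)
    linarith
  set N : ℝ := ((SbQ H b).card : ℝ) with hN
  have hN0 : 0 ≤ N := Nat.cast_nonneg _
  have hbad1 : ∀ i, (((SbQ H b).filter fun s => s i ∈ B i).card : ℝ) ≤ 2 / r ^ 3 * N := by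
    intro i
    have h1 := count_upd (fun i => cls (H i) (b i)) i (fun s => s i ∈ B i) (B i).card (by
      intro s _
      simp only [Function.update_self]
      exact card_le_card fun t ht => (mem_filter.1 ht).2)
    have h1' : ((SbQ H b).filter fun s => s i ∈ B i).card * (cls (H i) (b i)).card ≤
        (B i).card * (SbQ H b).card := h1
    have h2 : (((SbQ H b).filter fun s => s i ∈ B i).card : ℝ) * ((cls (H i) (b i)).card : ℝ) ≤
        ((B i).card : ℝ) * N := by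
      rw [hN]
      exact_mod_cast h1'
    have h3 : (((SbQ H b).filter fun s => s i ∈ B i).card : ℝ) * (r ^ 39 / 2) ≤ r ^ 36 * N := by
      calc _ ≤ (((SbQ H b).filter fun s => s i ∈ B i).card : ℝ) * ((cls (H i) (b i)).card : ℝ) :=
            mul_le_mul_of_nonneg_left (hT i) (Nat.cast_nonneg _)
        _ ≤ ((B i).card : ℝ) * N := h2
        _ ≤ r ^ 36 * N := mul_le_mul_of_nonneg_right (hB1 i) hN0
    have h4 : 2 / r ^ 3 * N = (r ^ 36 * N) / (r ^ 39 / 2) := by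
      field_simp
    rw [h4, le_div_iff₀ (by positivity)]
    exact h3
  have hbad2 : ∀ x : Fin K × Fin K, x.1 ≠ x.2 → (((SbQ H b).filter fun s =>
      (q x.1).coeff 2 * ((q x.2).coeff 0 + s x.2) = (q x.2).coeff 2 * ((q x.1).coeff 0 + s x.1)).card : ℝ) ≤
      2 / r ^ 3 * N := by
    rintro ⟨i, j⟩ hij
    dsimp only at hij ⊢
    have h1 := count_upd (fun i => cls (H i) (b i)) j (fun s =>
      (q i).coeff 2 * ((q j).coeff 0 + s j) = (q j).coeff 2 * ((q i).coeff 0 + s i)) 1 (by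
      intro s _
      rw [card_le_one]
      intro t ht t' ht'
      rw [mem_filter] at ht ht'
      have e1 := ht.2
      have e2 := ht'.2
      simp only [Function.update_self, Function.update_of_ne hij] at e1 e2
      have e3 : (q i).coeff 2 * ((t : ℤ) - t') = 0 := by linear_combination e1 - e2
      rcases mul_eq_zero.1 e3 with e4 | e4
      · exact absurd e4 (c2_ne (hq i))
      · have e5 : (t : ℤ) = t' := sub_eq_zero.1 e4
        exact_mod_cast e5)
    have h1' : ((SbQ H b).filter fun s => (q i).coeff 2 * ((q j).coeff 0 + s j) =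
        (q j).coeff 2 * ((q i).coeff 0 + s i)).card * (cls (H j) (b j)).card ≤ 1 * (SbQ H b).card := h1
    have h2 : (((SbQ H b).filter fun s => (q i).coeff 2 * ((q j).coeff 0 + s j) =
        (q j).coeff 2 * ((q i).coeff 0 + s i)).card : ℝ) * ((cls (H j) (b j)).card : ℝ) ≤ 1 * N := by
      rw [hN]
      exact_mod_cast h1'
    have h3 : (((SbQ H b).filter fun s => (q i).coeff 2 * ((q j).coeff 0 + s j) =
        (q j).coeff 2 * ((q i).coeff 0 + s i)).card : ℝ) * (r ^ 39 / 2) ≤ r ^ 36 * N := by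
      calc _ ≤ (((SbQ H b).filter fun s => (q i).coeff 2 * ((q j).coeff 0 + s j) =
        (q j).coeff 2 * ((q i).coeff 0 + s i)).card : ℝ) * ((cls (H j) (b j)).card : ℝ) :=
            mul_le_mul_of_nonneg_left (hT j) (Nat.cast_nonneg _)
        _ ≤ 1 * N := h2
        _ ≤ r ^ 36 * N := mul_le_mul_of_nonneg_right (one_le_pow₀ (by linarith)) hN0
    have h4 : 2 / r ^ 3 * N = (r ^ 36 * N) / (r ^ 39 / 2) := by
      field_simp
    rw [h4, le_div_iff₀ (by positivity)]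
    exact h3
  -- the union bound
  have hsub : ((SbQ H b).filter fun s => ¬ (AdmP q s → 0 < singP q s ∧
      Tendsto (singPP q s) atTop (nhds (singP q s)) ∧
      |singP q s - singPP q s (w0 (Y ^ 2))| ≤ ε * singPP q s (w0 (Y ^ 2)))) ⊆
      (univ.biUnion fun i => (SbQ H b).filter fun s => s i ∈ B i) ∪
      ((univ : Finset (Fin K × Fin K)).filter (fun x => x.1 ≠ x.2)).biUnion fun x =>
        (SbQ H b).filter fun s => (q x.1).coeff 2 * ((q x.2).coeff 0 + s x.2) =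
          (q x.2).coeff 2 * ((q x.1).coeff 0 + s x.1) := by
    intro s hs
    rw [mem_filter] at hs
    by_contra hcon
    rw [mem_union, not_or, mem_biUnion, mem_biUnion] at hcon
    apply hs.2
    refine hgood s hs.1 (fun i hi => ?_) (fun i j hij h => ?_)
    · exact hcon.1 ⟨i, mem_univ _, mem_filter.2 ⟨hs.1, hi⟩⟩
    · exact hcon.2 ⟨(i, j), mem_filter.2 ⟨mem_univ _, hij⟩, mem_filter.2 ⟨hs.1, h.2⟩⟩
  have hcard := (card_le_card hsub).trans ((card_union_le _ _).trans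
    (add_le_add card_biUnion_le card_biUnion_le))
  have hcard' : ((((SbQ H b).filter fun s => ¬ (AdmP q s → 0 < singP q s ∧
      Tendsto (singPP q s) atTop (nhds (singP q s)) ∧
      |singP q s - singPP q s (w0 (Y ^ 2))| ≤ ε * singPP q s (w0 (Y ^ 2)))).card : ℕ) : ℝ) ≤
      ∑ i : Fin K, (((SbQ H b).filter fun s => s i ∈ B i).card : ℝ) +
      ∑ x ∈ (univ : Finset (Fin K × Fin K)).filter (fun x => x.1 ≠ x.2), (((SbQ H b).filter fun s =>
        (q x.1).coeff 2 * ((q x.2).coeff 0 + s x.2) = (q x.2).coeff 2 * ((q x.1).coeff 0 + s x.1)).card : ℝ) := by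
    exact_mod_cast hcard
  refine hcard'.trans ?_
  have hs1 := sum_le_card_nsmul (univ : Finset (Fin K)) _ _ fun i _ => hbad1 i
  have hs2 := sum_le_card_nsmul ((univ : Finset (Fin K × Fin K)).filter (fun x => x.1 ≠ x.2)) _ _
    fun x hx => hbad2 x (mem_filter.1 hx).2
  rw [card_univ, Fintype.card_fin, nsmul_eq_mul] at hs1
  rw [nsmul_eq_mul] at hs2
  have hpairs : ((((univ : Finset (Fin K × Fin K)).filter (fun x => x.1 ≠ x.2)).card : ℕ) : ℝ) ≤ (K : ℝ) ^ 2 := by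
    have h1 : ((univ : Finset (Fin K × Fin K)).filter (fun x => x.1 ≠ x.2)).card ≤ K * K := by
      refine (card_filter_le _ _).trans ?_
      rw [card_univ, Fintype.card_prod, Fintype.card_fin]
    have h2 : ((((univ : Finset (Fin K × Fin K)).filter (fun x => x.1 ≠ x.2)).card : ℕ) : ℝ) ≤ ((K * K : ℕ) : ℝ) := by
      exact_mod_cast h1
    refine h2.trans (le_of_eq ?_)
    push_cast
    ring
  have hnn : 0 ≤ 2 / r ^ 3 * N := mul_nonneg (div_nonneg (by norm_num) (pow_nonneg hr0.le 3)) hN0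
  have hs3 : ((((univ : Finset (Fin K × Fin K)).filter (fun x => x.1 ≠ x.2)).card : ℕ) : ℝ) * (2 / r ^ 3 * N) ≤
      (K : ℝ) ^ 2 * (2 / r ^ 3 * N) := mul_le_mul_of_nonneg_right hpairs hnn
  have hfin : ((K : ℝ) + (K : ℝ) ^ 2) * (2 / r ^ 3) ≤ ε := by
    have h1 : (K : ℝ) + (K : ℝ) ^ 2 ≤ 2 * L ^ 4 := by
      have h2 : (K : ℝ) ^ 2 ≤ L ^ 2 := by gcongr
      have h3 : L ^ 2 ≤ L ^ 4 := pow_le_pow_right₀ hL1 (by norm_num)
      linarith
    have h2 : r ≤ r ^ 3 := le_self_pow₀ (by linarith) (by norm_num)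
    have h3 : 2 / r ^ 3 ≤ 2 / r := by gcongr
    have h7 : 1000 * L ^ 4 ≤ ε * r := by
      have h8 : 1000 / ε * L ^ 4 = 1000 * L ^ 4 / ε := by ring
      rw [h8, div_le_iff₀ hε] at hrLε
      linarith
    calc ((K : ℝ) + (K : ℝ) ^ 2) * (2 / r ^ 3) ≤ 2 * L ^ 4 * (2 / r) := by gcongr
      _ = 4 * L ^ 4 / r := by ring
      _ ≤ ε := by
        rw [div_le_iff₀ hr0]
        nlinarith [pow_pos (zero_lt_one.trans_le hL1) 4]
  calc _ ≤ (K : ℝ) * (2 / r ^ 3 * N) + (K : ℝ) ^ 2 * (2 / r ^ 3 * N) := by linarith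
    _ = (((K : ℝ) + (K : ℝ) ^ 2) * (2 / r ^ 3)) * N := by ring
    _ ≤ ε * N := mul_le_mul_of_nonneg_right hfin hN0

end Pool.Agent.Q145.PQ
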