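import Pool.Agent.Q145.PQ.Stm

/-!
# Project PQ, job WCBP: the weighted count and the count
-/

set_option autoImplicit false

namespace Pool.Agent.Q145.PQ

open Finset
open Pool.Agent.Q145.SZ
open Pool.Agent.Q145.LQ (vq Sys)

/-- JOB WCBP -/
theorem t_WCBP : S_WCBP := by
  classical
  intro d z Y X K H q s hX hY hS hs
  have hH3 : ∀ i, 3 ≤ H i := fun i => hX.trans (hS.scale i).1
  have hH : ∀ i, (3 : ℝ) ≤ (H i : ℝ) := fun i => by exact_mod_cast hH3 i
  have hY' : (3 : ℝ) ≤ (Y : ℝ) := by exact_mod_cast hY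
  have hv : ∀ n ∈ Ioc Y (2 * Y), ∀ i, H i ≤ vq (q i) n + s i ∧ vq (q i) n + s i ≤ 3 * H i := by
    intro n hn i
    have h1 := hS.val i n hn
    have h2 := mem_Icc.1 (hs i)
    have h3 := hH3 i
    unfold vq
    have h4 : 0 ≤ (q i).eval (n : ℤ) := by omega
    have h5 : (((q i).eval (n : ℤ)).toNat : ℤ) = (q i).eval (n : ℤ) := Int.toNat_of_nonneg h4
    omega
  have key : ∀ n ∈ Ioc Y (2 * Y),
      (if n.Prime ∧ ∀ i, (vq (q i) n + s i).Prime then Real.log Y * ∏ i, Real.log (H i) else 0) ≤
        wt n * ∏ i, wt (vq (q i) n + s i) ∧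
      wt n * ∏ i, wt (vq (q i) n + s i) ≤
        (if n.Prime ∧ ∀ i, (vq (q i) n + s i).Prime then
          Real.log (3 * Y) * ∏ i, Real.log (3 * H i) else 0) := by
    intro n hn
    have hb := hv n hn
    have hn1 : (Y : ℝ) ≤ (n : ℝ) := by exact_mod_cast (mem_Ioc.1 hn).1.le
    have hn2 : (n : ℝ) ≤ 3 * (Y : ℝ) := by
      have : n ≤ 3 * Y := by
        have := (mem_Ioc.1 hn).2
        omega
      exact_mod_cast this
    split_ifs with h
    · have hc : ∏ i, wt (vq (q i) n + s i) = ∏ i, Real.log ((vq (q i) n + s i : ℕ) : ℝ) :=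
        prod_congr rfl fun i _ => by
          unfold wt
          rw [if_pos (h.2 i)]
      have hn3 : wt n = Real.log n := by
        unfold wt
        rw [if_pos h.1]
      rw [hc, hn3]
      have hv1 : ∀ i, (H i : ℝ) ≤ ((vq (q i) n + s i : ℕ) : ℝ) := fun i => by
        exact_mod_cast (hb i).1
      have hv2 : ∀ i, ((vq (q i) n + s i : ℕ) : ℝ) ≤ 3 * (H i : ℝ) := fun i => by
        exact_mod_cast (hb i).2
      constructor
      · refine mul_le_mul (Real.log_le_log (by linarith) hn1) ?_ ?_ (Real.log_natCast_nonneg _)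
        · exact prod_le_prod (fun i _ => Real.log_nonneg (by linarith [hH i])) fun i _ =>
            Real.log_le_log (by linarith [hH i]) (hv1 i)
        · exact prod_nonneg fun i _ => Real.log_nonneg (by linarith [hH i])
      · refine mul_le_mul (Real.log_le_log (by linarith) hn2) ?_ ?_ (Real.log_nonneg (by linarith))
        · exact prod_le_prod (fun i _ => Real.log_natCast_nonneg _) fun i _ =>
            Real.log_le_log (by linarith [hH i, hv1 i]) (hv2 i)
        · exact prod_nonneg fun i _ => Real.log_natCast_nonneg _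
    · have : wt n * ∏ i, wt (vq (q i) n + s i) = 0 := by
        by_cases hp : n.Prime
        · have h' : ∃ i, ¬ (vq (q i) n + s i).Prime := by
            by_contra hcon
            push Not at hcon
            exact h ⟨hp, hcon⟩
          obtain ⟨i, hi⟩ := h'
          rw [prod_eq_zero (mem_univ i) (by unfold wt; rw [if_neg hi]), mul_zero]
        · have : wt n = 0 := by
            unfold wt
            rw [if_neg hp]
          rw [this, zero_mul]
      rw [this]
      exact ⟨le_rfl, le_rfl⟩
  have e : ∀ x : ℝ, (cntP Y q s : ℝ) * x = ∑ n ∈ Ioc Y (2 * Y),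
      (if n.Prime ∧ ∀ i, (vq (q i) n + s i).Prime then x else 0) := by
    intro x
    unfold cntP
    rw [← sum_filter, sum_const, nsmul_eq_mul]
  rw [e, e]
  unfold wcP
  exact ⟨sum_le_sum fun n hn => (key n hn).1, sum_le_sum fun n hn => (key n hn).2⟩

end Pool.Agent.Q145.PQ
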